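import Pool.Agent.Helper45.TR.GalN0
import Pool.Agent.Helper38.TR.Blk
import Pool.Agent.Helper34.TR.Asm
import Pool.Agent.Helper24.TR.Gal
import Pool.Agent.Helper57.TR.GalF

/-!
Project TR (MP_b8862a_ag), block TR-9c: the ranks of the blocks, different blocks are not isomorphic for the
brackets of `LG`, and `LG` is everything.
-/

set_option linter.unusedSectionVars false

open Matrix

namespace MH

variable {n : Type*} [Fintype n] [DecidableEq n]
variable {m : ℤ} {Q : Matrix n n ℚ} {S : Finset ℤ} {P : ℤ → Matrix n n ℂ} {Γ : Subgroup (GL n ℂ)}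

theorem IsGalE.rank_or (H : IsHS m Q S P) (hSA : SelfAdj Q P) (G : IsGalE m Q P Γ) (C : CentEC P Γ)
    {e : Matrix n n ℂ} (he : IsBlock P e) : e.rank = 1 ∨ 9 ≤ e.rank := by
  obtain ⟨B, Bi, Qi, h1, h2, h3, h4, hM⟩ := H.exists_basis
  obtain ⟨S', R, hR, hr | ⟨hD, -⟩⟩ := G.touch e he
  · exact Or.inl hr
  · exact Or.inr (hR.rank_ge45 h3 he.idem (EC_adj hSA he.mem) (fun p => R_EC C hR he.mem p) hD)

private theorem detQ45 (H : IsHS m Q S P) : (toC Q).det ≠ 0 := by
  obtain ⟨B, Bi, Qi, h1, h2, h3, h4, hM⟩ := H.exists_basis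
  have h5 := congrArg Matrix.det h3
  rw [Matrix.det_mul, Matrix.det_one] at h5
  intro h6
  rw [h6, zero_mul] at h5
  exact zero_ne_one h5

private theorem LGb_sk45 (H : IsHS m Q S P) (G : IsGalE m Q P Γ) {X : Matrix n n ℂ} (hX : X ∈ LGb Γ) :
    Xᵀ * toC Q + toC Q * X = 0 :=
  LGb_skew45 (fun Y hY => by
    obtain ⟨c, -, hc⟩ := IsGalE.LG_sim H G hY
    exact ⟨c, hc⟩) hX

/-- different blocks are not isomorphic for the brackets of `LG` -/
theorem IsGalE.block_ne (H : IsHS m Q S P) (hSA : SelfAdj Q P) (G : IsGalE m Q P Γ) (C : CentEC P Γ)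
    {e f : Matrix n n ℂ} (he : IsBlock P e) (hf : IsBlock P f) (hef : e * f = 0) {T : Matrix n n ℂ}
    (hT : f * T * e = T) (hTc : ∀ X ∈ LGb Γ, T * X = X * T) : T = 0 := by
  obtain ⟨B, Bi, Qi, h1, h2, h3, h4, hM⟩ := H.exists_basis
  have hQd := detQ45 H
  have hae := EC_adj hSA he.mem
  have haf := EC_adj hSA hf.mem
  obtain ⟨W, hW1, hW2⟩ := exists_orth H.Q_symm hQd he.idem hae
  obtain ⟨U, hU1, hU2⟩ := exists_orth H.Q_symm hQd hf.idem haf
  have hre : Fintype.card (Fin e.rank) = 1 ∨ 3 ≤ Fintype.card (Fin e.rank) := by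
    rw [Fintype.card_fin]
    rcases IsGalE.rank_or H hSA G C he with h | h
    · exact Or.inl h
    · exact Or.inr (by omega)
  have hrf : Fintype.card (Fin f.rank) = 1 ∨ 3 ≤ Fintype.card (Fin f.rank) := by
    rw [Fintype.card_fin]
    rcases IsGalE.rank_or H hSA G C hf with h | h
    · exact Or.inl h
    · exact Or.inr (by omega)
  obtain ⟨Γ', hΓ', hcm⟩ := C.comm
  rcases inter45 (Γ' := Γ') (L := LGb Γ) h3 (fun X hX => LGb_sk45 H G hX) (fun g hg => by
      obtain ⟨z, -, hz⟩ := G.sim g (hΓ'.1 hg)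
      exact ⟨z, hz⟩) (fun g hg X hX => LGb_conj45 (hΓ'.1 hg) hX) he.idem hf.idem hae haf
    (fun g hg => hcm g hg e he.mem) (fun g hg => hcm g hg f hf.mem)
    (fun A hA hAc => scal_block45 H.Q_symm hre hW1 hW2
      (fun X hX hXs => IsGalE.block_full H hSA G C he hX hXs) hA hAc)
    (fun A hA hAc => scal_block45 H.Q_symm hrf hU1 hU2
      (fun X hX hXs => IsGalE.block_full H hSA G C hf hX hXs) hA hAc)
    (fun T hT hTc h0 => iso_block45 H.Q_symm hrf hU1 hU2 hW2
      (fun X hX hXs => IsGalE.block_full H hSA G C hf hX hXs) hT hTc h0 he.idem hf.idem)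
    hT hTc with h | ⟨K, hK1, hK2, hK3⟩
  · exact h
  · have h5 : T ∈ EC P := C.cent K ⟨hK1.trans hΓ'.1, Subgroup.relIndex_ne_zero_trans hK2 hΓ'.2⟩ T hK3
    have h6 : f * T = T * f := EC_comm H hSA hf.mem h5
    have h7 : f * e = 0 := by rw [EC_comm H hSA hf.mem he.mem, hef]
    rw [← hT, h6, mul_assoc, h7, mul_zero]

theorem IsGalE.LG_full (H : IsHS m Q S P) (hSA : SelfAdj Q P) (G : IsGalE m Q P Γ) (C : CentEC P Γ)
    {X : Matrix n n ℂ} (hX : Xᵀ * toC Q + toC Q * X = 0) (hXc : ∀ x ∈ EC P, X * x = x * X) : X ∈ LG Γ := by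
  obtain ⟨k, e, he, hef, hsum, -, -⟩ := exists_blocks H hSA
  refine LGb_le45 (assemble H.Q_symm (detQ45 H) e (fun i => (he i).idem) hef hsum
    (fun i => EC_adj hSA (he i).mem) (fun i => IsGalE.rank_or H hSA G C (he i)) (LGb Γ)
    (fun X hX Y hY => LGb_br45 hX hY) (fun X hX => LGb_sk45 H G hX)
    (fun X hX i => LG_EC C (LGb_le45 hX) (he i).mem)
    (fun i X hX hXs => IsGalE.block_full H hSA G C (he i) hX hXs)
    (fun i j hij T hT hTc => IsGalE.block_ne H hSA G C (he i) (he j) (hef i j hij) hT hTc) hX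
    (fun i => hXc _ (he i).mem))

/-- if the weight is not zero the scalars lie in `LG` -/
theorem IsGalE.scal (H : IsHS m Q S P) (hSA : SelfAdj Q P) (G : IsGalE m Q P Γ) (C : CentEC P Γ)
    (hm : m ≠ 0) : (1 : Matrix n n ℂ) ∈ LG Γ := by
  obtain ⟨k, e, he, hef, hsum, -, -⟩ := exists_blocks H hSA
  rcases Nat.eq_zero_or_pos k with hk | hk
  · subst hk
    rw [Finset.univ_eq_empty, Finset.sum_empty] at hsum
    rw [← hsum]
    exact Submodule.zero_mem _
  · obtain ⟨S', R, hR, -⟩ := G.touch (e ⟨0, hk⟩) (he _)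
    have h1 := hR.h_mem
    have h2 : (∑ p ∈ S', (p : ℂ) • R p) - (m : ℂ) • (1 : Matrix n n ℂ) ∈ LG Γ := by
      refine IsGalE.LG_full H hSA G C hR.skew45 fun x hx => ?_
      have h3 : (∑ p ∈ S', (p : ℂ) • R p) * x = x * ∑ p ∈ S', (p : ℂ) • R p := by
        rw [Finset.sum_mul, Finset.mul_sum]
        refine Finset.sum_congr rfl fun p _ => ?_
        rw [Matrix.smul_mul, Matrix.mul_smul, R_EC C hR hx]
      rw [sub_mul, mul_sub, h3, Matrix.smul_mul, Matrix.mul_smul, one_mul, mul_one]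
    have h4 : (m : ℂ) • (1 : Matrix n n ℂ) ∈ LG Γ := by
      have h5 := Submodule.sub_mem _ h1 h2
      rw [sub_sub_cancel] at h5
      exact h5
    have h6 : (m : ℂ) ≠ 0 := by exact_mod_cast hm
    have h7 := Submodule.smul_mem _ ((m : ℂ)⁻¹) h4
    rw [smul_smul, inv_mul_cancel₀ h6, one_smul] at h7
    exact h7

end MH
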