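import Pool.Agent.Helper14.TR.Defs

/-!
Project TR (MP_b8862a_ag), block TR-9c, general part: the brackets of `LG`, conjugation by elements of `Γ`,
matrices that commute with everything on a block.
-/

set_option linter.unusedSectionVars false

open Matrix Pointwise

namespace MH

section skew

variable {k : Type*} [Fintype k] [DecidableEq k]

private theorem third45 (hk : 3 ≤ Fintype.card k) (i j : k) : ∃ l, l ≠ i ∧ l ≠ j := by
  classical
  by_contra h
  push Not at h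
  have h1 : (Finset.univ : Finset k) ⊆ {i, j} := by
    intro l _
    rw [Finset.mem_insert, Finset.mem_singleton]
    by_cases hl : l = i
    · exact Or.inl hl
    · exact Or.inr (h l hl)
  have h2 := Finset.card_le_card h1
  have h3 : ({i, j} : Finset k).card ≤ 2 := Finset.card_le_two
  rw [Finset.card_univ] at h2
  omega

/-- the elementary skew matrix -/
private def sk45 (i j : k) : Matrix k k ℂ := Matrix.single i j 1 - Matrix.single j i 1

private theorem sk_skew45 (i j : k) : (sk45 i j)ᵀ = -sk45 i j := by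
  unfold sk45
  rw [Matrix.transpose_sub, Matrix.transpose_single, Matrix.transpose_single]
  abel

/-- the commutant of the skew-symmetric matrices -/
theorem skew_comm45 (hk : Fintype.card k = 1 ∨ 3 ≤ Fintype.card k) {A : Matrix k k ℂ}
    (hA : ∀ x : Matrix k k ℂ, xᵀ = -x → A * x = x * A) : ∃ c : ℂ, A = c • (1 : Matrix k k ℂ) := by
  classical
  rcases hk with hk | hk
  · obtain ⟨i0, h0⟩ := Fintype.card_eq_one_iff.1 hk
    refine ⟨A i0 i0, ?_⟩
    ext i j
    rw [h0 i, h0 j]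
    simp
  · have h1 : ∀ i j l, i ≠ j → A l i = (if l = i then A j j else 0) - (if l = j then A i j else 0) := by
      intro i j l hij
      have h2 := congrFun (congrFun (hA _ (sk_skew45 i j)) l) j
      unfold sk45 at h2
      rw [mul_sub, sub_mul, Matrix.sub_apply, Matrix.sub_apply, Matrix.mul_single_apply_same,
        Matrix.mul_single_apply_of_ne _ _ _ _ _ (Ne.symm hij), mul_one, sub_zero] at h2
      rw [h2]
      congr 1
      · split_ifs with h
        · subst h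
          rw [Matrix.single_mul_apply_same, one_mul]
        · rw [Matrix.single_mul_apply_of_ne _ _ _ _ _ h]
      · split_ifs with h
        · subst h
          rw [Matrix.single_mul_apply_same, one_mul]
        · rw [Matrix.single_mul_apply_of_ne _ _ _ _ _ h]
    have hne : Nonempty k := by
      rw [← Fintype.card_pos_iff]
      omega
    obtain ⟨i0⟩ := hne
    refine ⟨A i0 i0, ?_⟩
    ext l i
    rw [Matrix.smul_apply, Matrix.one_apply, smul_eq_mul]
    by_cases hli : l = i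
    · subst hli
      rw [if_pos rfl, mul_one]
      by_cases h2 : l = i0
      · rw [h2]
      · have h3 := h1 l i0 l h2
        rw [if_pos rfl, if_neg h2, sub_zero] at h3
        exact h3
    · rw [if_neg hli, mul_zero]
      obtain ⟨j, hj1, hj2⟩ := third45 hk l i
      have h3 := h1 i j l (Ne.symm hj2)
      rw [if_neg hli, if_neg (Ne.symm hj1), sub_zero] at h3
      exact h3

/-- an isotropic intertwiner is zero -/
theorem iso_zero45 {l : Type*} [Fintype l] [DecidableEq l] (hk : Fintype.card k = 1 ∨ 3 ≤ Fintype.card k)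
    {t : Matrix k l ℂ} (h0 : tᵀ * t = 0)
    (ht : ∀ x : Matrix k k ℂ, xᵀ = -x → ∃ y : Matrix l l ℂ, x * t = t * y) : t = 0 := by
  classical
  rcases hk with hk | hk
  · obtain ⟨i0, hi0⟩ := Fintype.card_eq_one_iff.1 hk
    ext i a
    rw [hi0 i]
    have h1 := congrFun (congrFun h0 a) a
    rw [Matrix.mul_apply, Finset.sum_eq_single i0] at h1
    · rw [Matrix.transpose_apply, Matrix.zero_apply] at h1
      rw [Matrix.zero_apply]
      exact mul_self_eq_zero.1 h1
    · intro b _ hb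
      exact absurd (hi0 b) hb
    · intro h
      exact absurd (Finset.mem_univ _) h
  · have h1 : ∀ i j a, i ≠ j → t i a * t i a + t j a * t j a = 0 := by
      intro i j a hij
      obtain ⟨y, hy⟩ := ht _ (sk_skew45 i j)
      have h2 : (sk45 i j * t)ᵀ * (sk45 i j * t) = 0 := by
        rw [hy, Matrix.transpose_mul, Matrix.mul_assoc, ← Matrix.mul_assoc tᵀ, h0, Matrix.zero_mul, Matrix.mul_zero]
      have h3 := congrFun (congrFun h2 a) a
      rw [Matrix.mul_apply, Matrix.zero_apply] at h3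
      have h4 : ∀ b, (sk45 i j * t) b a = (if b = i then t j a else 0) - (if b = j then t i a else 0) := by
        intro b
        unfold sk45
        rw [Matrix.sub_mul, Matrix.sub_apply]
        congr 1
        · split_ifs with h
          · subst h
            rw [Matrix.single_mul_apply_same, one_mul]
          · rw [Matrix.single_mul_apply_of_ne _ _ _ _ _ h]
        · split_ifs with h
          · subst h
            rw [Matrix.single_mul_apply_same, one_mul]
          · rw [Matrix.single_mul_apply_of_ne _ _ _ _ _ h]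
      have h5 : ∀ b, (sk45 i j * t)ᵀ a b * (sk45 i j * t) b a =
          (if b = i then t j a * t j a else 0) + (if b = j then t i a * t i a else 0) := by
        intro b
        rw [Matrix.transpose_apply, h4]
        by_cases hb : b = i
        · subst hb
          rw [if_pos rfl, if_pos rfl, if_neg hij, if_neg hij, sub_zero, add_zero]
        · rw [if_neg hb, if_neg hb]
          by_cases hb' : b = j
          · subst hb'
            rw [if_pos rfl, if_pos rfl, zero_sub, zero_add, neg_mul_neg]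
          · rw [if_neg hb', if_neg hb', sub_zero, mul_zero, add_zero]
      rw [Finset.sum_congr rfl fun b _ => h5 b, Finset.sum_add_distrib, Finset.sum_ite_eq' Finset.univ i,
        Finset.sum_ite_eq' Finset.univ j, if_pos (Finset.mem_univ _), if_pos (Finset.mem_univ _)] at h3
      linear_combination h3
    ext i a
    obtain ⟨j, hj, -⟩ := third45 hk i i
    obtain ⟨l', hl1, hl2⟩ := third45 hk i j
    have e1 := h1 i j a (Ne.symm hj)
    have e2 := h1 i l' a (Ne.symm hl1)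
    have e3 := h1 j l' a (Ne.symm hl2)
    rw [Matrix.zero_apply]
    refine mul_self_eq_zero.1 ?_
    linear_combination (1 / 2 : ℂ) * e1 + (1 / 2 : ℂ) * e2 - (1 / 2 : ℂ) * e3

end skew

variable {n : Type*} [Fintype n] [DecidableEq n]

section blk

variable {Q' : Matrix n n ℂ}

/-- the pull-back of a skew matrix -/
private theorem pull45 (hQs : Q'ᵀ = Q') {k : Type*} [Fintype k] [DecidableEq k] {W : Matrix n k ℂ} {e : Matrix n n ℂ}
    (h1 : Wᵀ * Q' * W = 1) (h2 : W * (Wᵀ * Q') = e) {x : Matrix k k ℂ} (hx : xᵀ = -x) :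
    e * (W * x * (Wᵀ * Q')) * e = W * x * (Wᵀ * Q') ∧
      (W * x * (Wᵀ * Q'))ᵀ * Q' + Q' * (W * x * (Wᵀ * Q')) = 0 := by
  refine ⟨?_, ?_⟩
  · rw [← h2]
    calc W * (Wᵀ * Q') * (W * x * (Wᵀ * Q')) * (W * (Wᵀ * Q'))
        = W * ((Wᵀ * Q' * W) * x * (Wᵀ * Q' * W)) * (Wᵀ * Q') := by simp only [Matrix.mul_assoc]
      _ = W * x * (Wᵀ * Q') := by rw [h1, Matrix.one_mul, Matrix.mul_one]
  · rw [Matrix.transpose_mul, Matrix.transpose_mul, Matrix.transpose_mul, Matrix.transpose_transpose, hQs, hx]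
    have e1 : Q' * W * (-x * Wᵀ) * Q' = -(Q' * (W * x * (Wᵀ * Q'))) := by
      simp only [Matrix.neg_mul, Matrix.mul_neg, Matrix.mul_assoc]
    rw [e1, neg_add_cancel]

/-- what commutes with everything on a block is a scalar on the block -/
theorem scal_block45 (hQs : Q'ᵀ = Q') {k : Type*} [Fintype k] [DecidableEq k]
    (hk : Fintype.card k = 1 ∨ 3 ≤ Fintype.card k) {W : Matrix n k ℂ} {e : Matrix n n ℂ}
    (h1 : Wᵀ * Q' * W = 1) (h2 : W * (Wᵀ * Q') = e) {L : Submodule ℂ (Matrix n n ℂ)}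
    (hfull : ∀ X, e * X * e = X → Xᵀ * Q' + Q' * X = 0 → ∃ Y ∈ L, Y * e = X) {A : Matrix n n ℂ}
    (hA : e * A * e = A) (hAc : ∀ X ∈ L, A * X = X * A) : ∃ c : ℂ, A = c • e := by
  have hee : e * e = e := by
    rw [← h2]
    calc W * (Wᵀ * Q') * (W * (Wᵀ * Q')) = W * ((Wᵀ * Q' * W) * (Wᵀ * Q')) := by simp only [Matrix.mul_assoc]
      _ = W * (Wᵀ * Q') := by rw [h1, Matrix.one_mul]
  have hAe : A * e = A := by
    conv_lhs => rw [← hA]
    rw [Matrix.mul_assoc, hee, hA]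
  have heA : e * A = A := by
    conv_lhs => rw [← hA]
    rw [← Matrix.mul_assoc, ← Matrix.mul_assoc, hee, hA]
  obtain ⟨c, hcA⟩ := skew_comm45 hk (A := Wᵀ * Q' * A * W) (by
    intro x hx
    obtain ⟨a1, a2⟩ := pull45 hQs h1 h2 hx
    obtain ⟨Y, hY, hYe⟩ := hfull _ a1 a2
    have a3 : A * (W * x * (Wᵀ * Q')) = (W * x * (Wᵀ * Q')) * A := by
      rw [← hYe, ← Matrix.mul_assoc, hAc Y hY, Matrix.mul_assoc, Matrix.mul_assoc, hAe, heA]
    calc Wᵀ * Q' * A * W * x = Wᵀ * Q' * (A * (W * x * (Wᵀ * Q'))) * W := by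
          have : Wᵀ * Q' * (A * (W * x * (Wᵀ * Q'))) * W = Wᵀ * Q' * A * W * x * (Wᵀ * Q' * W) := by
            simp only [Matrix.mul_assoc]
          rw [this, h1, Matrix.mul_one]
      _ = Wᵀ * Q' * ((W * x * (Wᵀ * Q')) * A) * W := by rw [a3]
      _ = (Wᵀ * Q' * W) * x * (Wᵀ * Q' * A * W) := by simp only [Matrix.mul_assoc]
      _ = x * (Wᵀ * Q' * A * W) := by rw [h1, Matrix.one_mul])
  refine ⟨c, ?_⟩
  calc A = e * A * e := hA.symm
    _ = W * (Wᵀ * Q' * A * W) * (Wᵀ * Q') := by rw [← h2]; simp only [Matrix.mul_assoc]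
    _ = c • e := by rw [hcA, Matrix.mul_smul, Matrix.mul_one, Matrix.smul_mul, h2]

/-- an isotropic intertwiner of blocks is zero -/
theorem iso_block45 (hQs : Q'ᵀ = Q') {k l : Type*} [Fintype k] [DecidableEq k] [Fintype l] [DecidableEq l]
    (hk : Fintype.card k = 1 ∨ 3 ≤ Fintype.card k) {W : Matrix n k ℂ} {f : Matrix n n ℂ}
    (h1 : Wᵀ * Q' * W = 1) (h2 : W * (Wᵀ * Q') = f) {U : Matrix n l ℂ} {e : Matrix n n ℂ}
    (h4 : U * (Uᵀ * Q') = e) {L : Submodule ℂ (Matrix n n ℂ)}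
    (hfull : ∀ X, f * X * f = X → Xᵀ * Q' + Q' * X = 0 → ∃ Y ∈ L, Y * f = X) {T : Matrix n n ℂ}
    (hT : f * T * e = T) (hTc : ∀ X ∈ L, T * X = X * T) (h0 : Tᵀ * Q' * T = 0) (hee : e * e = e)
    (hff : f * f = f) : T = 0 := by
  have hTe : T * e = T := by
    conv_lhs => rw [← hT]
    rw [Matrix.mul_assoc, hee, hT]
  have hfT : f * T = T := by
    conv_lhs => rw [← hT]
    rw [← Matrix.mul_assoc, ← Matrix.mul_assoc, hff, hT]
  have hz := iso_zero45 hk (t := Wᵀ * Q' * T * U) (by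
      rw [Matrix.transpose_mul, Matrix.transpose_mul, Matrix.transpose_mul, Matrix.transpose_transpose, hQs]
      calc Uᵀ * (Tᵀ * (Q' * W)) * (Wᵀ * Q' * T * U) = Uᵀ * (Tᵀ * Q' * ((W * (Wᵀ * Q')) * T)) * U := by
            simp only [Matrix.mul_assoc]
        _ = 0 := by rw [h2, hfT, h0, Matrix.mul_zero, Matrix.zero_mul]) (by
      intro x hx
      obtain ⟨a1, a2⟩ := pull45 hQs h1 h2 hx
      obtain ⟨Y, hY, hYf⟩ := hfull _ a1 a2
      refine ⟨Uᵀ * Q' * Y * U, ?_⟩
      calc x * (Wᵀ * Q' * T * U) = (Wᵀ * Q' * W) * x * (Wᵀ * Q' * T * U) := by rw [h1, Matrix.one_mul]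
        _ = Wᵀ * Q' * (W * x * (Wᵀ * Q')) * T * U := by simp only [Matrix.mul_assoc]
        _ = Wᵀ * Q' * (Y * (f * T)) * U := by rw [← hYf]; simp only [Matrix.mul_assoc]
        _ = Wᵀ * Q' * (T * Y) * U := by rw [hfT, hTc Y hY]
        _ = Wᵀ * Q' * ((T * e) * Y) * U := by rw [hTe]
        _ = Wᵀ * Q' * T * (e * Y) * U := by simp only [Matrix.mul_assoc]
        _ = Wᵀ * Q' * T * (U * (Uᵀ * Q') * Y) * U := by rw [h4]
        _ = Wᵀ * Q' * T * U * (Uᵀ * Q' * Y * U) := by simp only [Matrix.mul_assoc])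
  calc T = f * T * e := hT.symm
    _ = W * (Wᵀ * Q' * T * U) * (Uᵀ * Q') := by rw [← h2, ← h4]; simp only [Matrix.mul_assoc]
    _ = 0 := by rw [hz, Matrix.mul_zero, Matrix.zero_mul]

end blk

/-! ### the brackets of `LG` -/

section lie

variable {Γ : Subgroup (GL n ℂ)}

theorem LG_br45 {X Y : Matrix n n ℂ} (hX : X ∈ LG Γ) (hY : Y ∈ LG Γ) : X * Y - Y * X ∈ LG Γ := by
  intro a b t ht
  rw [dL_bracket, hX a b t ht, hY a b t ht, dact_zero, dact_zero, sub_zero]

theorem LGb_le45 : LGb Γ ≤ LG Γ := by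
  refine Submodule.span_le.2 ?_
  rintro _ ⟨A, hA, B, hB, rfl⟩
  exact LG_br45 hA hB

theorem LGb_br45 {X Y : Matrix n n ℂ} (hX : X ∈ LGb Γ) (hY : Y ∈ LGb Γ) : X * Y - Y * X ∈ LGb Γ :=
  Submodule.subset_span ⟨X, LGb_le45 hX, Y, LGb_le45 hY, rfl⟩

/-- the brackets of infinitesimal similitudes are infinitesimal isometries -/
theorem LGb_skew45 {Q' : Matrix n n ℂ}
    (hsim : ∀ X ∈ LG Γ, ∃ c : ℂ, Xᵀ * Q' + Q' * X = c • Q') {X : Matrix n n ℂ} (hX : X ∈ LGb Γ) :
    Xᵀ * Q' + Q' * X = 0 := by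
  unfold LGb at hX
  induction hX using Submodule.span_induction with
  | mem Z hZ =>
    obtain ⟨A, hA, B, hB, rfl⟩ := hZ
    obtain ⟨c, hc⟩ := hsim A hA
    obtain ⟨c', hc'⟩ := hsim B hB
    have a1 : Aᵀ * Q' = c • Q' - Q' * A := eq_sub_of_add_eq hc
    have a2 : Bᵀ * Q' = c' • Q' - Q' * B := eq_sub_of_add_eq hc'
    rw [Matrix.transpose_sub, Matrix.transpose_mul, Matrix.transpose_mul, sub_mul, mul_assoc, mul_assoc, a1, a2,
      mul_sub, mul_sub, Matrix.mul_smul, Matrix.mul_smul, ← mul_assoc, ← mul_assoc, a1, a2, smul_sub, smul_sub,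
      sub_mul, sub_mul, Matrix.smul_mul, Matrix.smul_mul, smul_comm c c' Q', mul_sub, mul_assoc, mul_assoc]
    abel
  | zero => rw [Matrix.transpose_zero, zero_mul, mul_zero, add_zero]
  | add A B _ _ hA hB =>
    rw [Matrix.transpose_add, add_mul, mul_add]
    calc Aᵀ * Q' + Bᵀ * Q' + (Q' * A + Q' * B) = (Aᵀ * Q' + Q' * A) + (Bᵀ * Q' + Q' * B) := by abel
      _ = 0 := by rw [hA, hB, add_zero]
  | smul c A _ hA => rw [Matrix.transpose_smul, Matrix.smul_mul, Matrix.mul_smul, ← smul_add, hA, smul_zero]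

/-- the conjugate of a Tate tensor is a Tate tensor -/
theorem tate_conj45 {g : GL n ℂ} (hg : g ∈ Γ) {a b : ℕ} {t : (Fin a ⊕ Fin b → n) → ℂ}
    (ht : IsTateTensor Γ a b t) :
    IsTateTensor Γ a b (actF (slot a b (g : Matrix n n ℂ) ((g⁻¹ : GL n ℂ) : Matrix n n ℂ)) t) := by
  obtain ⟨Γ', h1, h2, h3⟩ := ht
  refine ⟨MulAut.conj g • Γ', ?_, ?_, ?_⟩
  · intro x hx
    obtain ⟨s, hs, rfl⟩ := (Subgroup.mem_smul_pointwise_iff_exists _ _ _).1 hx
    rw [MulAut.smul_def, MulAut.conj_apply]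
    exact Γ.mul_mem (Γ.mul_mem hg (h1 hs)) (Γ.inv_mem hg)
  · have e1 : MulAut.conj g • Γ = Γ := Subgroup.conj_smul_eq_self_of_mem hg
    have e2 := Subgroup.relIndex_pointwise_smul (MulAut.conj g) Γ' Γ
    rw [e1] at e2
    rw [e2]
    exact h2
  · intro x hx
    obtain ⟨s, hs, rfl⟩ := (Subgroup.mem_smul_pointwise_iff_exists _ _ _).1 hx
    rw [MulAut.smul_def, MulAut.conj_apply]
    have e3 := h3 s hs
    rw [actF_mul]
    conv_rhs => rw [← e3]
    rw [actF_mul]
    congr 1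
    funext j
    rcases j with j | j
    · simp only [slot, Sum.elim_inl]
      rw [← Units.val_mul, ← Units.val_mul, inv_mul_cancel_right]
    · simp only [slot, Sum.elim_inr]
      rw [← Matrix.transpose_mul, ← Matrix.transpose_mul, ← Units.val_mul, ← Units.val_mul]
      congr 2
      group

/-- `LG` is stable under conjugation -/
theorem LG_conj45 {g : GL n ℂ} (hg : g ∈ Γ) {X : Matrix n n ℂ} (hX : X ∈ LG Γ) :
    (g : Matrix n n ℂ) * X * ((g⁻¹ : GL n ℂ) : Matrix n n ℂ) ∈ LG Γ := by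
  intro a b t ht
  have h1 : (g : Matrix n n ℂ) * ((g⁻¹ : GL n ℂ) : Matrix n n ℂ) = 1 := by
    rw [← Units.val_mul, mul_inv_cancel, Units.val_one]
  have ht' := tate_conj45 (Γ.inv_mem hg) ht
  rw [inv_inv] at ht'
  have h2 := hX a b _ ht'
  rw [dL_apply] at h2 ⊢
  have h3 := dact_conj (slot a b (g : Matrix n n ℂ) ((g⁻¹ : GL n ℂ) : Matrix n n ℂ))
    (slot a b ((g⁻¹ : GL n ℂ) : Matrix n n ℂ) (g : Matrix n n ℂ)) (by
    rintro (k | k)
    · exact h1
    · simp only [slot, Sum.elim_inr]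
      rw [← Matrix.transpose_mul, h1, Matrix.transpose_one]) (lslot a b X) t
  rw [h2, actF_zero] at h3
  rw [← h3]
  congr 1
  funext k
  rcases k with k | k
  · rfl
  · simp only [lslot, slot, Sum.elim_inr, Matrix.transpose_mul, mul_neg, neg_mul, mul_assoc]

theorem LGb_conj45 {g : GL n ℂ} (hg : g ∈ Γ) {X : Matrix n n ℂ} (hX : X ∈ LGb Γ) :
    (g : Matrix n n ℂ) * X * ((g⁻¹ : GL n ℂ) : Matrix n n ℂ) ∈ LGb Γ := by
  have h1 : ((g⁻¹ : GL n ℂ) : Matrix n n ℂ) * (g : Matrix n n ℂ) = 1 := by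
    rw [← Units.val_mul, inv_mul_cancel, Units.val_one]
  have key : ∀ A B : Matrix n n ℂ, (g : Matrix n n ℂ) * A * ((g⁻¹ : GL n ℂ) : Matrix n n ℂ) *
      ((g : Matrix n n ℂ) * B * ((g⁻¹ : GL n ℂ) : Matrix n n ℂ)) =
      (g : Matrix n n ℂ) * (A * B) * ((g⁻¹ : GL n ℂ) : Matrix n n ℂ) := by
    intro A B
    calc (g : Matrix n n ℂ) * A * ((g⁻¹ : GL n ℂ) : Matrix n n ℂ) *
          ((g : Matrix n n ℂ) * B * ((g⁻¹ : GL n ℂ) : Matrix n n ℂ))
        = (g : Matrix n n ℂ) * A * (((g⁻¹ : GL n ℂ) : Matrix n n ℂ) * (g : Matrix n n ℂ)) * B *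
          ((g⁻¹ : GL n ℂ) : Matrix n n ℂ) := by simp only [mul_assoc]
      _ = _ := by rw [h1, mul_one, mul_assoc (g : Matrix n n ℂ) A B]
  unfold LGb at hX
  induction hX using Submodule.span_induction with
  | mem Z hZ =>
    obtain ⟨A, hA, B, hB, rfl⟩ := hZ
    refine Submodule.subset_span ⟨_, LG_conj45 hg hA, _, LG_conj45 hg hB, ?_⟩
    rw [key, key, mul_sub, sub_mul]
  | zero => rw [mul_zero, zero_mul]; exact Submodule.zero_mem _
  | add A B _ _ hA hB => rw [mul_add, add_mul]; exact Submodule.add_mem _ hA hB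
  | smul c A _ hA => rw [Matrix.mul_smul, Matrix.smul_mul]; exact Submodule.smul_mem _ _ hA

end lie

/-! ### Hodge-Tate decompositions -/

section ht

variable {m : ℤ} {Q : Matrix n n ℚ} {S : Finset ℤ} {Γ : Subgroup (GL n ℂ)} {R : ℤ → Matrix n n ℂ}

/-- the transposes of the projections -/
theorem IsHT.refl45 (G : IsHT m Q S Γ R) (p : ℤ) : (R p)ᵀ * toC Q = toC Q * R (2 * m - p) := by
  have a1 : (R p)ᵀ * toC Q = (R p)ᵀ * toC Q * R (2 * m - p) := by
    have b1 : (R p)ᵀ * toC Q = ∑ q ∈ S, (R p)ᵀ * toC Q * R q := by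
      rw [← Finset.mul_sum, G.sum, mul_one]
    by_cases h : 2 * m - p ∈ S
    · conv_lhs => rw [b1]
      refine Finset.sum_eq_single_of_mem _ h fun q _ hq => G.orth p q fun h1 => hq ?_
      omega
    · rw [G.supp _ h, mul_zero, b1]
      refine Finset.sum_eq_zero fun q hq => G.orth p q fun h1 => h ?_
      have : 2 * m - p = q := by omega
      rw [this]
      exact hq
  have a2 : toC Q * R (2 * m - p) = (R p)ᵀ * toC Q * R (2 * m - p) := by
    have b1 : toC Q * R (2 * m - p) = ∑ q ∈ S, (R q)ᵀ * toC Q * R (2 * m - p) := by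
      rw [← Finset.sum_mul, ← Finset.sum_mul, ← Matrix.transpose_sum, G.sum, Matrix.transpose_one, one_mul]
    by_cases h : p ∈ S
    · conv_lhs => rw [b1]
      refine Finset.sum_eq_single_of_mem _ h fun q _ hq => G.orth q _ fun h1 => hq ?_
      omega
    · rw [G.supp _ h, Matrix.transpose_zero, zero_mul, zero_mul, b1]
      refine Finset.sum_eq_zero fun q hq => G.orth q _ fun h1 => h ?_
      have : p = q := by omega
      rw [this]
      exact hq
  rw [a1, a2]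

theorem IsHT.idem45 (G : IsHT m Q S Γ R) {e : Matrix n n ℂ} (hee : e * e = e) (hc : ∀ p, R p * e = e * R p)
    (p : ℤ) : e * R p * (e * R p) = e * R p := by
  rw [mul_assoc, ← mul_assoc (R p), hc, mul_assoc, ← mul_assoc e e, hee, G.mul, if_pos rfl]

theorem IsHT.rank_symm45 (G : IsHT m Q S Γ R) {Qi : Matrix n n ℂ} (h3 : toC Q * Qi = 1)
    {e : Matrix n n ℂ} (hee : e * e = e) (hadj : eᵀ * toC Q = toC Q * e) (hc : ∀ p, R p * e = e * R p)
    (p : ℤ) : (e * R (2 * m - p)).rank = (e * R p).rank := by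
  have h4 : Qi * toC Q = 1 := mul_eq_one_comm.1 h3
  have e1 : R (2 * m - p) = Qi * (R p)ᵀ * toC Q := by
    rw [mul_assoc, G.refl45, ← mul_assoc, h4, one_mul]
  have e2 : (e * R (2 * m - p)).trace = (e * R p).trace := by
    have e3 : e * (Qi * (R p)ᵀ * toC Q) = (e * (Qi * (R p)ᵀ)) * toC Q := by simp only [mul_assoc]
    have e4 : toC Q * (e * (Qi * (R p)ᵀ)) = eᵀ * (toC Q * Qi) * (R p)ᵀ := by
      rw [← mul_assoc, ← hadj]
      simp only [mul_assoc]
    rw [e1, e3, Matrix.trace_mul_comm, e4, h3, mul_one, ← Matrix.transpose_mul, Matrix.trace_transpose, hc]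
  rw [trace_eq_rank (G.idem45 hee hc _), trace_eq_rank (G.idem45 hee hc _)] at e2
  exact_mod_cast e2

theorem IsHT.rank_sum45 (G : IsHT m Q S Γ R) {e : Matrix n n ℂ} (hee : e * e = e)
    (hc : ∀ p, R p * e = e * R p) : ∑ p ∈ S, (e * R p).rank = e.rank := by
  have h1 : ((∑ p ∈ S, (e * R p).rank : ℕ) : ℂ) = ((e.rank : ℕ) : ℂ) := by
    rw [Nat.cast_sum, ← trace_eq_rank hee]
    have h2 : e = ∑ p ∈ S, e * R p := by rw [← Finset.mul_sum, G.sum, mul_one]
    conv_rhs => rw [h2]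
    rw [Matrix.trace_sum]
    exact Finset.sum_congr rfl fun p _ => (trace_eq_rank (G.idem45 hee hc p)).symm
  exact_mod_cast h1

theorem IsHT.rank_ge45 (G : IsHT m Q S Γ R) {Qi : Matrix n n ℂ} (h3 : toC Q * Qi = 1)
    {e : Matrix n n ℂ} (hee : e * e = e) (hadj : eᵀ * toC Q = toC Q * e) (hc : ∀ p, R p * e = e * R p)
    (D : Dom m S (fun p => (e * R p).rank)) : 9 ≤ e.rank := by
  classical
  obtain ⟨D1, D2⟩ := D
  obtain ⟨s, hs⟩ : ∃ s, s = ∑ p ∈ S.filter (fun p => m < p), (e * R p).rank := ⟨_, rfl⟩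
  rw [← hs] at D1 D2
  replace D2 : s ^ 2 < (e * R m).rank := D2
  have hm : m ∈ S := by
    by_contra h
    rw [G.supp _ h, mul_zero, Matrix.rank_zero] at D2
    omega
  have h5 : s ≤ ∑ p ∈ S.filter (fun p => p < m), (e * R p).rank := by
    have h6 : s = ∑ p ∈ (S.filter (fun p => m < p)).image (fun p => 2 * m - p), (e * R p).rank := by
      rw [Finset.sum_image (by
        intro x _ y _ hxy
        have hxy' : 2 * m - x = 2 * m - y := hxy
        omega), hs]
      exact Finset.sum_congr rfl fun p _ => (G.rank_symm45 h3 hee hadj hc p).symm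
    rw [h6]
    refine Finset.sum_le_sum_of_ne_zero fun p hp hne => ?_
    rw [Finset.mem_filter]
    refine ⟨?_, ?_⟩
    · by_contra h
      rw [G.supp _ h, mul_zero, Matrix.rank_zero] at hne
      exact hne rfl
    · obtain ⟨q, hq, hqp⟩ := Finset.mem_image.1 hp
      have h7 := (Finset.mem_filter.1 hq).2
      have hqp' : 2 * m - q = p := hqp
      omega
  have h8 : S = insert m (S.filter (fun p => m < p) ∪ S.filter (fun p => p < m)) := by
    ext p
    rw [Finset.mem_insert, Finset.mem_union, Finset.mem_filter, Finset.mem_filter]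
    constructor
    · intro hp
      rcases lt_trichotomy p m with h | h | h
      · exact Or.inr (Or.inr ⟨hp, h⟩)
      · exact Or.inl h
      · exact Or.inr (Or.inl ⟨hp, h⟩)
    · rintro (rfl | ⟨hp, -⟩ | ⟨hp, -⟩)
      · exact hm
      · exact hp
      · exact hp
  have h9 := G.rank_sum45 hee hc
  rw [h8, Finset.sum_insert (by
    rw [Finset.mem_union, Finset.mem_filter, Finset.mem_filter]
    rintro (⟨-, h⟩ | ⟨-, h⟩) <;> exact lt_irrefl _ h), Finset.sum_union (by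
    rw [Finset.disjoint_left]
    intro p h1 h2
    exact lt_asymm (Finset.mem_filter.1 h1).2 (Finset.mem_filter.1 h2).2), ← hs] at h9
  nlinarith [h9, h5, D1, D2]

/-- the derivative of the cocharacter is an infinitesimal similitude -/
theorem IsHT.skew45 (G : IsHT m Q S Γ R) :
    ((∑ p ∈ S, (p : ℂ) • R p) - (m : ℂ) • (1 : Matrix n n ℂ))ᵀ * toC Q +
      toC Q * ((∑ p ∈ S, (p : ℂ) • R p) - (m : ℂ) • (1 : Matrix n n ℂ)) = 0 := by
  have h1 : (∑ p ∈ S, (p : ℂ) • R p)ᵀ * toC Q = ∑ p ∈ S, ∑ q ∈ S, (p : ℂ) • ((R p)ᵀ * toC Q * R q) := by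
    rw [Matrix.transpose_sum, Finset.sum_mul]
    refine Finset.sum_congr rfl fun p _ => ?_
    rw [← Finset.smul_sum, ← Finset.mul_sum, G.sum, mul_one, Matrix.transpose_smul, Matrix.smul_mul]
  have h2 : toC Q * (∑ p ∈ S, (p : ℂ) • R p) = ∑ p ∈ S, ∑ q ∈ S, (q : ℂ) • ((R p)ᵀ * toC Q * R q) := by
    rw [Finset.sum_comm, Finset.mul_sum]
    refine Finset.sum_congr rfl fun p _ => ?_
    rw [← Finset.smul_sum, ← Finset.sum_mul, ← Finset.sum_mul, ← Matrix.transpose_sum, G.sum, Matrix.transpose_one,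
      one_mul, Matrix.mul_smul]
  have h3 : toC Q = ∑ p ∈ S, ∑ q ∈ S, ((R p)ᵀ * toC Q * R q) := by
    have h4 : ∀ p ∈ S, ∑ q ∈ S, ((R p)ᵀ * toC Q * R q) = (R p)ᵀ * toC Q := by
      intro p _
      rw [← Finset.mul_sum, G.sum, mul_one]
    rw [Finset.sum_congr rfl h4, ← Finset.sum_mul, ← Matrix.transpose_sum, G.sum, Matrix.transpose_one, one_mul]
  have h5 : (∑ p ∈ S, (p : ℂ) • R p)ᵀ * toC Q + toC Q * (∑ p ∈ S, (p : ℂ) • R p) = (2 * (m : ℂ)) • toC Q := by
    rw [h1, h2]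
    conv_rhs => rw [h3]
    rw [← Finset.sum_add_distrib, Finset.smul_sum]
    refine Finset.sum_congr rfl fun p _ => ?_
    rw [← Finset.sum_add_distrib, Finset.smul_sum]
    refine Finset.sum_congr rfl fun q _ => ?_
    rw [← add_smul]
    by_cases h : p + q = 2 * m
    · have h6 : (p : ℂ) + (q : ℂ) = 2 * (m : ℂ) := by exact_mod_cast h
      rw [h6]
    · rw [G.orth p q h, smul_zero, smul_zero]
  rw [Matrix.transpose_sub, Matrix.transpose_smul, Matrix.transpose_one, sub_mul, mul_sub, Matrix.smul_mul,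
    Matrix.mul_smul, one_mul, mul_one]
  have h7 : (∑ p ∈ S, (p : ℂ) • R p)ᵀ * toC Q - (m : ℂ) • toC Q +
      (toC Q * (∑ p ∈ S, (p : ℂ) • R p) - (m : ℂ) • toC Q) =
      ((∑ p ∈ S, (p : ℂ) • R p)ᵀ * toC Q + toC Q * (∑ p ∈ S, (p : ℂ) • R p)) - (2 * (m : ℂ)) • toC Q := by
    rw [two_mul, add_smul]
    abel
  rw [h7, h5, sub_self]

end ht

/-! ### intertwiners of different blocks -/

section ne

variable {Q' : Matrix n n ℂ} {Γ' : Subgroup (GL n ℂ)} {L : Submodule ℂ (Matrix n n ℂ)}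

/-- an intertwiner of blocks is zero or commutes with a subgroup of finite index -/
theorem inter45 {Qi : Matrix n n ℂ} (h3 : Q' * Qi = 1)
    (hsk : ∀ X ∈ L, Xᵀ * Q' + Q' * X = 0)
    (hsim : ∀ g ∈ Γ', ∃ z : ℂ, (g : Matrix n n ℂ)ᵀ * Q' * (g : Matrix n n ℂ) = z ^ 2 • Q')
    (hL : ∀ g ∈ Γ', ∀ X ∈ L, (g : Matrix n n ℂ) * X * ((g⁻¹ : GL n ℂ) : Matrix n n ℂ) ∈ L)
    {e f : Matrix n n ℂ} (hee : e * e = e) (hff : f * f = f) (hae : eᵀ * Q' = Q' * e) (haf : fᵀ * Q' = Q' * f)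
    (hge : ∀ g ∈ Γ', (g : Matrix n n ℂ) * e = e * (g : Matrix n n ℂ))
    (hgf : ∀ g ∈ Γ', (g : Matrix n n ℂ) * f = f * (g : Matrix n n ℂ))
    (hse : ∀ A : Matrix n n ℂ, e * A * e = A → (∀ X ∈ L, A * X = X * A) → ∃ c : ℂ, A = c • e)
    (hsf : ∀ A : Matrix n n ℂ, f * A * f = A → (∀ X ∈ L, A * X = X * A) → ∃ c : ℂ, A = c • f)
    (hiso : ∀ T, f * T * e = T → (∀ X ∈ L, T * X = X * T) → Tᵀ * Q' * T = 0 → T = 0)
    {T : Matrix n n ℂ} (hT : f * T * e = T) (hTc : ∀ X ∈ L, T * X = X * T) :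
    T = 0 ∨ ∃ K ≤ Γ', K.relIndex Γ' ≠ 0 ∧ ∀ g ∈ K, (g : Matrix n n ℂ) * T = T * (g : Matrix n n ℂ) := by
  classical
  by_cases hT0 : T = 0
  · exact Or.inl hT0
  right
  have h4 : Qi * Q' = 1 := mul_eq_one_comm.1 h3
  have hTe : T * e = T := by
    conv_lhs => rw [← hT]
    rw [Matrix.mul_assoc, hee, hT]
  have hfT : f * T = T := by
    conv_lhs => rw [← hT]
    rw [← Matrix.mul_assoc, ← Matrix.mul_assoc, hff, hT]
  obtain ⟨Ta, hTa⟩ : ∃ Ta, Ta = Qi * Tᵀ * Q' := ⟨_, rfl⟩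
  have hae' : Qi * eᵀ = e * Qi := by
    calc Qi * eᵀ = Qi * (eᵀ * Q') * Qi := by rw [mul_assoc, mul_assoc, h3, mul_one]
      _ = e * Qi := by rw [hae, ← mul_assoc, h4, one_mul]
  have hTa1 : e * Ta * f = Ta := by
    rw [hTa]
    calc e * (Qi * Tᵀ * Q') * f = (e * Qi) * Tᵀ * (Q' * f) := by simp only [mul_assoc]
      _ = Qi * (eᵀ * Tᵀ * fᵀ) * Q' := by rw [← hae', ← haf]; simp only [mul_assoc]
      _ = Qi * Tᵀ * Q' := by
        rw [← Matrix.transpose_mul, ← Matrix.transpose_mul, hTe, hfT]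
  have hTac : ∀ X ∈ L, Ta * X = X * Ta := by
    intro X hX
    have a1 : Q' * X = -(Xᵀ * Q') := eq_neg_of_add_eq_zero_right (hsk X hX)
    have a2 : X * Qi = -(Qi * Xᵀ) := by
      calc X * Qi = Qi * (Q' * X) * Qi := by rw [← mul_assoc, h4, one_mul]
        _ = -(Qi * Xᵀ) := by rw [a1, mul_neg, neg_mul, mul_assoc, mul_assoc, h3, mul_one]
    rw [hTa]
    calc Qi * Tᵀ * Q' * X = Qi * Tᵀ * (Q' * X) := by simp only [mul_assoc]
      _ = -(Qi * (X * T)ᵀ * Q') := by rw [a1, mul_neg, Matrix.transpose_mul]; simp only [mul_assoc]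
      _ = -(Qi * (T * X)ᵀ * Q') := by rw [hTc X hX]
      _ = (-(Qi * Xᵀ)) * Tᵀ * Q' := by rw [Matrix.transpose_mul, neg_mul, neg_mul]; simp only [mul_assoc]
      _ = X * (Qi * Tᵀ * Q') := by rw [← a2]; simp only [mul_assoc]
  have hQTa : Q' * Ta = Tᵀ * Q' := by rw [hTa, ← mul_assoc, ← mul_assoc, h3, one_mul]
  obtain ⟨c, hc⟩ := hse (Ta * T) (by
    calc e * (Ta * T) * e = (e * Ta) * (T * e) := by simp only [mul_assoc]
      _ = (e * Ta * f) * T := by rw [hTe]; conv_lhs => rw [← hfT]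
                                 rw [← mul_assoc]
      _ = Ta * T := by rw [hTa1]) (by
    intro X hX
    rw [mul_assoc, hTc X hX, ← mul_assoc, hTac X hX, mul_assoc])
  obtain ⟨c', hc'⟩ := hsf (T * Ta) (by
    calc f * (T * Ta) * f = (f * T) * (Ta * f) := by simp only [mul_assoc]
      _ = T * (e * Ta * f) := by rw [hfT]; conv_lhs => rw [← hTe]
                                 simp only [mul_assoc]
      _ = T * Ta := by rw [hTa1]) (by
    intro X hX
    rw [mul_assoc, hTac X hX, ← mul_assoc, hTc X hX, mul_assoc])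
  have hc0 : c ≠ 0 := by
    intro h
    rw [h, zero_smul] at hc
    exact hT0 (hiso T hT hTc (by rw [← hQTa, mul_assoc, hc, mul_zero]))
  have hcc : c' = c := by
    have a1 : c' • T = c • T := by
      calc c' • T = (c' • f) * T := by rw [Matrix.smul_mul, hfT]
        _ = T * (Ta * T) := by rw [← hc', mul_assoc]
        _ = c • T := by rw [hc, Matrix.mul_smul, hTe]
    exact smul_left_injective ℂ hT0 a1
  have hinv : ∀ g : GL n ℂ, ((g⁻¹ : GL n ℂ) : Matrix n n ℂ) * (g : Matrix n n ℂ) = 1 := fun g => by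
    rw [← Units.val_mul, inv_mul_cancel, Units.val_one]
  have hinv' : ∀ g : GL n ℂ, (g : Matrix n n ℂ) * ((g⁻¹ : GL n ℂ) : Matrix n n ℂ) = 1 := fun g => by
    rw [← Units.val_mul, mul_inv_cancel, Units.val_one]
  have hge' : ∀ g ∈ Γ', ((g⁻¹ : GL n ℂ) : Matrix n n ℂ) * e = e * ((g⁻¹ : GL n ℂ) : Matrix n n ℂ) :=
    fun g hg => hge _ (Γ'.inv_mem hg)
  -- the conjugate of `T`
  have hconj : ∀ g ∈ Γ', (g : Matrix n n ℂ) * T = T * (g : Matrix n n ℂ) ∨
      (g : Matrix n n ℂ) * T = -(T * (g : Matrix n n ℂ)) := by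
    intro g hg
    obtain ⟨T', hT'⟩ : ∃ T', T' = (g : Matrix n n ℂ) * T * ((g⁻¹ : GL n ℂ) : Matrix n n ℂ) := ⟨_, rfl⟩
    have hT'g : T' * (g : Matrix n n ℂ) = (g : Matrix n n ℂ) * T := by
      rw [hT', mul_assoc, hinv, mul_one]
    have hT'c : ∀ X ∈ L, T' * X = X * T' := by
      intro X hX
      have b1 := hL g⁻¹ (Γ'.inv_mem hg) X hX
      rw [inv_inv] at b1
      have b2 := hTc _ b1
      rw [hT']
      calc (g : Matrix n n ℂ) * T * ((g⁻¹ : GL n ℂ) : Matrix n n ℂ) * X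
          = (g : Matrix n n ℂ) * (T * (((g⁻¹ : GL n ℂ) : Matrix n n ℂ) * X * (g : Matrix n n ℂ))) *
            ((g⁻¹ : GL n ℂ) : Matrix n n ℂ) := by
            have : (g : Matrix n n ℂ) * (T * (((g⁻¹ : GL n ℂ) : Matrix n n ℂ) * X * (g : Matrix n n ℂ))) *
              ((g⁻¹ : GL n ℂ) : Matrix n n ℂ) = (g : Matrix n n ℂ) * T * ((g⁻¹ : GL n ℂ) : Matrix n n ℂ) * X *
                ((g : Matrix n n ℂ) * ((g⁻¹ : GL n ℂ) : Matrix n n ℂ)) := by simp only [mul_assoc]
            rw [this, hinv', mul_one]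
        _ = (g : Matrix n n ℂ) * ((((g⁻¹ : GL n ℂ) : Matrix n n ℂ) * X * (g : Matrix n n ℂ)) * T) *
            ((g⁻¹ : GL n ℂ) : Matrix n n ℂ) := by rw [b2]
        _ = ((g : Matrix n n ℂ) * ((g⁻¹ : GL n ℂ) : Matrix n n ℂ)) * X * ((g : Matrix n n ℂ) * T *
            ((g⁻¹ : GL n ℂ) : Matrix n n ℂ)) := by simp only [mul_assoc]
        _ = X * ((g : Matrix n n ℂ) * T * ((g⁻¹ : GL n ℂ) : Matrix n n ℂ)) := by rw [hinv', one_mul]
    have hfT' : f * T' = T' := by
      rw [hT', ← mul_assoc, ← mul_assoc, ← hgf g hg, mul_assoc (g : Matrix n n ℂ) f T, hfT]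
    have hT'e : T' * e = T' := by
      rw [hT', mul_assoc, hge' g hg, ← mul_assoc, mul_assoc (g : Matrix n n ℂ) T e, hTe]
    obtain ⟨a, ha⟩ := hse (Ta * T') (by
      calc e * (Ta * T') * e = (e * Ta) * (T' * e) := by simp only [mul_assoc]
        _ = (e * Ta * f) * T' := by rw [hT'e]; conv_lhs => rw [← hfT']
                                    rw [← mul_assoc]
        _ = Ta * T' := by rw [hTa1]) (by
      intro X hX
      rw [mul_assoc, hT'c X hX, ← mul_assoc, hTac X hX, mul_assoc])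
    have hb : c • T' = a • T := by
      calc c • T' = (c' • f) * T' := by rw [hcc, Matrix.smul_mul, hfT']
        _ = T * (Ta * T') := by rw [← hc', mul_assoc]
        _ = a • T := by rw [ha, Matrix.mul_smul, hTe]
    obtain ⟨χ, hχ⟩ : ∃ χ, χ = c⁻¹ * a := ⟨_, rfl⟩
    have hT'χ : T' = χ • T := by
      rw [hχ, mul_smul, ← hb, smul_smul, inv_mul_cancel₀ hc0, one_smul]
    -- `χ ^ 2 = 1`
    obtain ⟨z, hz⟩ := hsim g hg
    have hz' : z ^ 2 • ((((g⁻¹ : GL n ℂ) : Matrix n n ℂ))ᵀ * Q' * ((g⁻¹ : GL n ℂ) : Matrix n n ℂ)) = Q' := by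
      have d1 : (((g⁻¹ : GL n ℂ) : Matrix n n ℂ))ᵀ * ((g : Matrix n n ℂ)ᵀ * Q' * (g : Matrix n n ℂ)) *
          ((g⁻¹ : GL n ℂ) : Matrix n n ℂ) = Q' := by
        calc (((g⁻¹ : GL n ℂ) : Matrix n n ℂ))ᵀ * ((g : Matrix n n ℂ)ᵀ * Q' * (g : Matrix n n ℂ)) *
              ((g⁻¹ : GL n ℂ) : Matrix n n ℂ) = ((g : Matrix n n ℂ) * ((g⁻¹ : GL n ℂ) : Matrix n n ℂ))ᵀ * Q' *
                ((g : Matrix n n ℂ) * ((g⁻¹ : GL n ℂ) : Matrix n n ℂ)) := by
                rw [Matrix.transpose_mul]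
                simp only [mul_assoc]
          _ = Q' := by rw [hinv', Matrix.transpose_one, one_mul, mul_one]
      rw [hz, Matrix.mul_smul, Matrix.smul_mul] at d1
      exact d1
    have d2 : T'ᵀ * Q' * T' = c • (Q' * e) := by
      have d3 : Tᵀ * Q' * T = c • (Q' * e) := by rw [← hQTa, mul_assoc, hc, Matrix.mul_smul]
      rw [hT']
      calc ((g : Matrix n n ℂ) * T * ((g⁻¹ : GL n ℂ) : Matrix n n ℂ))ᵀ * Q' * ((g : Matrix n n ℂ) * T *
            ((g⁻¹ : GL n ℂ) : Matrix n n ℂ))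
          = (((g⁻¹ : GL n ℂ) : Matrix n n ℂ))ᵀ * (Tᵀ * ((g : Matrix n n ℂ)ᵀ * Q' * (g : Matrix n n ℂ)) * T) *
            ((g⁻¹ : GL n ℂ) : Matrix n n ℂ) := by
            rw [Matrix.transpose_mul, Matrix.transpose_mul]
            simp only [mul_assoc]
        _ = c • (z ^ 2 • ((((g⁻¹ : GL n ℂ) : Matrix n n ℂ))ᵀ * (Q' * (e *
            ((g⁻¹ : GL n ℂ) : Matrix n n ℂ))))) := by
            rw [hz, Matrix.mul_smul, Matrix.smul_mul, d3, smul_comm (z ^ 2) c, Matrix.mul_smul, Matrix.smul_mul,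
              Matrix.mul_smul, Matrix.smul_mul, mul_assoc, mul_assoc]
        _ = c • ((z ^ 2 • ((((g⁻¹ : GL n ℂ) : Matrix n n ℂ))ᵀ * Q' * ((g⁻¹ : GL n ℂ) : Matrix n n ℂ))) * e) := by
            rw [← hge' g hg, Matrix.smul_mul]
            simp only [mul_assoc]
        _ = c • (Q' * e) := by rw [hz']
    have d4 : T'ᵀ * Q' * T' = (χ ^ 2 * c) • (Q' * e) := by
      have d3 : Tᵀ * Q' * T = c • (Q' * e) := by rw [← hQTa, mul_assoc, hc, Matrix.mul_smul]
      rw [hT'χ, Matrix.transpose_smul, Matrix.smul_mul, Matrix.mul_smul, Matrix.smul_mul, d3, smul_smul, smul_smul,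
        pow_two]
    have hQe : Q' * e ≠ 0 := by
      intro h
      apply hT0
      have h5 : e = 0 := by rw [← one_mul e, ← h4, mul_assoc, h, mul_zero]
      rw [← hTe, h5, mul_zero]
    have d5 : χ ^ 2 * c = c := by
      have d6 : (χ ^ 2 * c) • (Q' * e) = c • (Q' * e) := by rw [← d4, d2]
      exact smul_left_injective ℂ hQe d6
    have d7 : χ ^ 2 = 1 := by
      have d8 : (χ ^ 2 - 1) * c = 0 := by rw [sub_mul, d5, one_mul, sub_self]
      rcases mul_eq_zero.1 d8 with h | h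
      · exact sub_eq_zero.1 h
      · exact absurd h hc0
    rcases mul_self_eq_one_iff.1 ((pow_two χ).symm.trans d7) with h | h
    · left
      rw [← hT'g, hT'χ, h, one_smul]
    · right
      rw [← hT'g, hT'χ, h, neg_smul, one_smul, neg_mul]
  -- the subgroup of the elements that commute with `T`
  obtain ⟨K, hK⟩ : ∃ K : Subgroup (GL n ℂ), ∀ g, g ∈ K ↔ g ∈ Γ' ∧ (g : Matrix n n ℂ) * T = T * (g : Matrix n n ℂ) := by
    refine ⟨{ carrier := {g | g ∈ Γ' ∧ (g : Matrix n n ℂ) * T = T * (g : Matrix n n ℂ)}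
              mul_mem' := ?_
              one_mem' := ?_
              inv_mem' := ?_ }, fun g => Iff.rfl⟩
    · rintro g h ⟨hg1, hg2⟩ ⟨hh1, hh2⟩
      refine ⟨Γ'.mul_mem hg1 hh1, ?_⟩
      rw [Units.val_mul, mul_assoc, hh2, ← mul_assoc, hg2, mul_assoc]
    · refine ⟨Γ'.one_mem, ?_⟩
      rw [Units.val_one, one_mul, mul_one]
    · rintro g ⟨hg1, hg2⟩
      refine ⟨Γ'.inv_mem hg1, ?_⟩
      calc ((g⁻¹ : GL n ℂ) : Matrix n n ℂ) * T
          = ((g⁻¹ : GL n ℂ) : Matrix n n ℂ) * (T * (g : Matrix n n ℂ)) * ((g⁻¹ : GL n ℂ) : Matrix n n ℂ) := by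
            rw [mul_assoc, mul_assoc, hinv', mul_one]
        _ = T * ((g⁻¹ : GL n ℂ) : Matrix n n ℂ) := by rw [← hg2, ← mul_assoc, hinv, one_mul]
  refine ⟨K, fun g hg => ((hK g).1 hg).1, ?_, fun g hg => ((hK g).1 hg).2⟩
  by_cases hall : ∀ g ∈ Γ', (g : Matrix n n ℂ) * T = T * (g : Matrix n n ℂ)
  · have h5 : K.relIndex Γ' = 1 := Subgroup.relIndex_eq_one.2 fun g hg => (hK g).2 ⟨hg, hall g hg⟩
    rw [h5]
    exact one_ne_zero
  · push Not at hall
    obtain ⟨g0, hg0, hg0'⟩ := hall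
    have hg0n := (hconj g0 hg0).resolve_left hg0'
    have h5 : K.relIndex Γ' = 2 := by
      rw [Subgroup.relIndex_eq_two_iff]
      refine ⟨g0, hg0, fun b hb => ?_⟩
      have hTg : ∀ g : GL n ℂ, T * (g : Matrix n n ℂ) ≠ -(T * (g : Matrix n n ℂ)) := by
        intro g h
        have h6 : (2 : ℂ) • (T * (g : Matrix n n ℂ)) = 0 := by
          rw [two_smul]
          exact eq_neg_iff_add_eq_zero.1 h
        have h7 : T * (g : Matrix n n ℂ) = 0 := (smul_eq_zero.1 h6).resolve_left two_ne_zero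
        apply hT0
        calc T = T * (g : Matrix n n ℂ) * ((g⁻¹ : GL n ℂ) : Matrix n n ℂ) := by rw [mul_assoc, hinv', mul_one]
          _ = 0 := by rw [h7, zero_mul]
      rcases hconj b hb with h | h
      · refine Or.inr ⟨(hK b).2 ⟨hb, h⟩, fun h8 => hTg (b * g0) ?_⟩
        refine ((hK _).1 h8).2.symm.trans ?_
        rw [Units.val_mul, mul_assoc, hg0n, mul_neg, ← mul_assoc, h, mul_assoc]
      · refine Or.inl ⟨(hK _).2 ⟨Γ'.mul_mem hb hg0, ?_⟩, fun h8 => hTg b ?_⟩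
        · rw [Units.val_mul, mul_assoc, hg0n, mul_neg, ← mul_assoc, h, neg_mul, neg_neg, mul_assoc]
        · rw [← h, ((hK _).1 h8).2]
    rw [h5]
    exact two_ne_zero

end ne

end MH
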